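import Pool.Agent.H89.MT.Targets

/-!
# MP_34b97f_an: interpolation between the scales (INT)
-/

open MeasureTheory ProbabilityTheory Filter Topology Finset

namespace Pool.Agent.H51.MT

open Pool.Agent.H89.MT

theorem sum_diff (x : ℕ → ℝ) (hx : ∀ n, |x n| ≤ 1) (M : ℕ) (hM : 1 ≤ M) (N : ℕ) (hN : M ≤ N) :
    |∑ n ∈ Icc 1 N, x n / n - ∑ n ∈ Icc 1 M, x n / n| ≤ Real.log N - Real.log M := by
  induction N, hN using Nat.le_induction with
  | base => simp
  | succ N hN ih =>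
    rw [Finset.sum_Icc_succ_top (by omega)]
    have hN0 : (0 : ℝ) < N := by
      have : 0 < N := by omega
      exact_mod_cast this
    have h1 : |x (N + 1) / ((N + 1 : ℕ) : ℝ)| ≤ Real.log ((N + 1 : ℕ) : ℝ) - Real.log N := by
      rw [← Real.log_div (by positivity) hN0.ne']
      have h2 := Real.one_sub_inv_le_log_of_pos (x := ((N + 1 : ℕ) : ℝ) / N) (by positivity)
      refine le_trans ?_ h2
      rw [abs_div, abs_of_pos (a := ((N + 1 : ℕ) : ℝ)) (by positivity), div_le_iff₀ (by positivity)]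
      refine (hx _).trans (le_of_eq ?_)
      push_cast
      field_simp
      ring
    have h3 : ∑ n ∈ Icc 1 N, x n / n + x (N + 1) / ((N + 1 : ℕ) : ℝ) - ∑ n ∈ Icc 1 M, x n / n =
        (∑ n ∈ Icc 1 N, x n / n - ∑ n ∈ Icc 1 M, x n / n) + x (N + 1) / ((N + 1 : ℕ) : ℝ) := by
      ring
    rw [h3]
    refine (abs_add_le _ _).trans ?_
    linarith

theorem lavg_le (x : ℕ → ℝ) (hx : ∀ n, |x n| ≤ 1) (M N : ℕ) (hM : 2 ≤ M) (hN : M ≤ N) :
    |lavg N x| ≤ |lavg M x| + (1 - Real.log M / Real.log N) := by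
  have hM1 : (1 : ℝ) < M := by exact_mod_cast hM
  have hMN : (M : ℝ) ≤ N := by exact_mod_cast hN
  have hlM : 0 < Real.log M := Real.log_pos hM1
  have hlMN : Real.log M ≤ Real.log N := Real.log_le_log (by linarith) hMN
  have hlN : 0 < Real.log N := lt_of_lt_of_le hlM hlMN
  have h1 := sum_diff x hx M (by omega) N hN
  have h2 : |∑ n ∈ Icc 1 N, x n / n| ≤ |∑ n ∈ Icc 1 M, x n / n| + (Real.log N - Real.log M) := by
    have := abs_add_le (∑ n ∈ Icc 1 N, x n / n - ∑ n ∈ Icc 1 M, x n / n) (∑ n ∈ Icc 1 M, x n / n)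
    rw [sub_add_cancel] at this
    linarith
  unfold lavg
  rw [abs_div, abs_of_pos hlN, abs_div, abs_of_pos hlM, div_le_iff₀ hlN, add_mul, sub_mul,
    div_mul_cancel₀ _ hlN.ne', one_mul]
  have h3 : |∑ n ∈ Icc 1 M, x n / n| ≤ |∑ n ∈ Icc 1 M, x n / n| / Real.log M * Real.log N := by
    rw [div_mul_eq_mul_div, le_div_iff₀ hlM]
    exact mul_le_mul_of_nonneg_left hlMN (abs_nonneg _)
  linarith

theorem pf_INT : T_INT := by
  intro x hx h
  rw [Metric.tendsto_atTop]
  intro ε hε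
  obtain ⟨k, hk⟩ := exists_nat_one_div_lt (show 0 < ε / 2 by linarith)
  have hk0 : (0 : ℝ) < (k : ℝ) + 1 := by positivity
  obtain ⟨j0, hj0⟩ := (Metric.tendsto_atTop.1 (h k)) (ε / 2) (by linarith)
  have hloglog : Tendsto (fun N : ℕ => ((k : ℝ) + 1) * Real.log (Real.log N)) atTop atTop :=
    ((Real.tendsto_log_atTop.comp Real.tendsto_log_atTop).comp
      tendsto_natCast_atTop_atTop).const_mul_atTop hk0
  have hj : Tendsto (fun N : ℕ => ⌊((k : ℝ) + 1) * Real.log (Real.log N)⌋₊) atTop atTop :=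
    tendsto_nat_floor_atTop.comp hloglog
  obtain ⟨N0, hN0⟩ := eventually_atTop.1 ((hj.eventually_ge_atTop j0).and
    (hloglog.eventually_ge_atTop 0))
  refine ⟨max N0 3, fun N hN => ?_⟩
  obtain ⟨h1, h2⟩ := hN0 N (le_trans (le_max_left _ _) hN)
  have hN3 : 3 ≤ N := le_trans (le_max_right _ _) hN
  obtain ⟨j, hjdef⟩ : ∃ j, j = ⌊((k : ℝ) + 1) * Real.log (Real.log N)⌋₊ := ⟨_, rfl⟩
  rw [← hjdef] at h1
  have hNr : (1 : ℝ) < N := by exact_mod_cast (show 1 < N by omega)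
  have hlN : 0 < Real.log N := Real.log_pos hNr
  have hj1 : (j : ℝ) / (k + 1) ≤ Real.log (Real.log N) := by
    rw [div_le_iff₀ hk0, mul_comm, hjdef]
    exact Nat.floor_le h2
  have hj2 : Real.log (Real.log N) < ((j : ℝ) + 1) / (k + 1) := by
    rw [lt_div_iff₀ hk0, mul_comm, hjdef]
    exact Nat.lt_floor_add_one _
  have hle : Real.exp (Real.exp ((j : ℝ) / (k + 1))) ≤ N := by
    have h3 : Real.exp ((j : ℝ) / (k + 1)) ≤ Real.log N := by
      rw [← Real.exp_log hlN]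
      exact Real.exp_le_exp.2 hj1
    calc Real.exp (Real.exp ((j : ℝ) / (k + 1))) ≤ Real.exp (Real.log N) := Real.exp_le_exp.2 h3
      _ = N := Real.exp_log (by linarith)
  have hsc : scale k j ≤ N := Nat.ceil_le.2 hle
  have hsc1 : Real.exp (Real.exp ((j : ℝ) / (k + 1))) ≤ (scale k j : ℝ) := Nat.le_ceil _
  have hsc2 : 2 ≤ scale k j := by
    have h3 : (1 : ℝ) < scale k j :=
      lt_of_lt_of_le (by rw [← Real.exp_zero]; exact Real.exp_lt_exp.2 (Real.exp_pos _)) hsc1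
    exact_mod_cast h3
  have hlM : Real.exp ((j : ℝ) / (k + 1)) ≤ Real.log (scale k j) := by
    rw [← Real.log_exp (Real.exp ((j : ℝ) / (k + 1)))]
    exact Real.log_le_log (Real.exp_pos _) hsc1
  have hlN2 : Real.log N ≤ Real.exp (((j : ℝ) + 1) / (k + 1)) := by
    rw [← Real.exp_log hlN]
    exact Real.exp_le_exp.2 hj2.le
  have h4 : 1 - 1 / ((k : ℝ) + 1) ≤ Real.log (scale k j) / Real.log N := by
    have h5 : Real.exp (-(1 / ((k : ℝ) + 1))) ≤ Real.log (scale k j) / Real.log N := by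
      rw [le_div_iff₀ hlN]
      calc Real.exp (-(1 / ((k : ℝ) + 1))) * Real.log N
          ≤ Real.exp (-(1 / ((k : ℝ) + 1))) * Real.exp (((j : ℝ) + 1) / (k + 1)) :=
            mul_le_mul_of_nonneg_left hlN2 (Real.exp_pos _).le
        _ = Real.exp ((j : ℝ) / (k + 1)) := by
            rw [← Real.exp_add]
            congr 1
            field_simp
            ring
        _ ≤ _ := hlM
    have h6 := Real.add_one_le_exp (-(1 / ((k : ℝ) + 1)))
    linarith
  have h7 := lavg_le x hx (scale k j) N hsc2 hsc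
  have h8 := hj0 j h1
  rw [Real.dist_eq, sub_zero] at h8 ⊢
  linarith

end Pool.Agent.H51.MT
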